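import Pool.Agent.Helper73.RF.GoalsC

/-! PACKET LCR for MP_c98eff_gt (helper73): the Christoffel symbols of Koszul in the moving
frame. -/

set_option autoImplicit false

open Finset
open Pool.Agent.Helper73.RF

namespace Pool.Agent.Helper54.RF

section
variable {𝒜 : Type} [CommRing 𝒜] [Algebra ℝ 𝒜] (E : Fin 3 → Derivation ℝ 𝒜 𝒜)
  (A θ : Fin 3 → Fin 3 → 𝒜)

private lemma Fd_mul (a : Fin 3) (f h : 𝒜) :
    FR.Fd E A a (f * h) = FR.Fd E A a f * h + f * FR.Fd E A a h := by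
  simp only [FR.Fd, Fin.sum_univ_three, Derivation.leibniz, smul_eq_mul]
  ring

private lemma Fd_sum (a : Fin 3) (f : Fin 3 → 𝒜) :
    FR.Fd E A a (∑ i, f i) = ∑ i, FR.Fd E A a (f i) := by
  simp only [FR.Fd, Fin.sum_univ_three, map_add]
  ring

private lemma Fd_delta (a b c : Fin 3) :
    FR.Fd E A a (if b = c then (1 : 𝒜) else 0) = 0 := by
  split_ifs <;> simp [FR.Fd]

omit [Algebra ℝ 𝒜] in
private lemma g_symm (i j : Fin 3) : FR.g θ i j = FR.g θ j i := by
  simp only [FR.g]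
  exact Finset.sum_congr rfl fun a _ => mul_comm _ _

variable {E A θ}

private lemma AgA (hF : FrameHyp E A θ) (a b : Fin 3) :
    ∑ i, ∑ j, A a i * FR.g θ i j * A b j = if a = b then 1 else 0 := by
  have h1 : ∑ i, ∑ j, A a i * FR.g θ i j * A b j
      = ∑ c, (∑ i, A a i * θ i c) * (∑ j, A b j * θ j c) := by
    simp only [FR.g, Fin.sum_univ_three]
    ring
  rw [h1]
  simp only [hF.At]
  simp

private lemma gig (hF : FrameHyp E A θ) (i j : Fin 3) :
    ∑ k, FR.gi A i k * FR.g θ k j = if i = j then 1 else 0 := by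
  have h1 : ∑ k, FR.gi A i k * FR.g θ k j
      = ∑ a, ∑ c, A a i * θ j c * (∑ k, A a k * θ k c) := by
    simp only [FR.g, FR.gi, Fin.sum_univ_three]
    ring
  rw [h1]
  simp only [hF.At, mul_ite, mul_one, mul_zero, Finset.sum_ite_eq, Finset.mem_univ, if_true]
  have h2 := hF.tA j i
  rw [show (if i = j then (1 : 𝒜) else 0) = if j = i then 1 else 0 by simp only [eq_comm], ← h2]
  exact Finset.sum_congr rfl fun a _ => mul_comm _ _

private lemma theta_eq (hF : FrameHyp E A θ) (j c : Fin 3) :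
    θ j c = ∑ k, FR.g θ j k * A c k := by
  have h1 : ∑ k, FR.g θ j k * A c k = ∑ d, θ j d * (∑ k, A c k * θ k d) := by
    simp only [FR.g, Fin.sum_univ_three]
    ring
  rw [h1]
  simp only [hF.At]
  simp

private lemma git (hF : FrameHyp E A θ) (m c : Fin 3) :
    ∑ l, FR.gi A l m * θ l c = A c m := by
  have h1 : ∑ l, FR.gi A l m * θ l c = ∑ d, (∑ l, A d l * θ l c) * A d m := by
    simp only [FR.gi, Fin.sum_univ_three]
    ring
  rw [h1]
  simp only [hF.At]
  simp

variable (E A θ)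

/-- `P_abc` -/
private def PP (a b c : Fin 3) : 𝒜 := ∑ j, ∑ k, FR.Fd E A a (A b j) * FR.g θ j k * A c k

/-- `Q_abc / 2` -/
private def QQ (a b c : Fin 3) : 𝒜 :=
  ∑ i, ∑ j, ∑ k, ∑ l, eps i j l • (A a i * A b j * FR.g θ l k * A c k)

private lemma QQ_anti (a b c : Fin 3) : QQ A θ a b c = -QQ A θ b a c := by
  simp only [QQ, Fin.sum_univ_three]
  simp [eps]
  ring

variable {E A θ}

private lemma D3 (hF : FrameHyp E A θ) (a b c : Fin 3) :
    ∑ j, ∑ k, A b j * A c k * FR.Fd E A a (FR.g θ j k) = -PP E A θ a b c - PP E A θ a c b := by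
  have h1 := congrArg (FR.Fd E A a) (AgA hF b c)
  rw [Fd_delta] at h1
  simp only [Fd_sum, Fd_mul] at h1
  have s01 := g_symm θ 1 0
  have s02 := g_symm θ 2 0
  have s12 := g_symm θ 2 1
  simp only [PP, Fin.sum_univ_three] at h1 ⊢
  rw [s01, s02, s12] at *
  linear_combination h1

private lemma C_eq (hF : FrameHyp E A θ) (a b c : Fin 3) :
    FR.C E A θ a b c = PP E A θ a b c - PP E A θ b a c + 2 * QQ A θ a b c := by
  have h1 : FR.C E A θ a b c = ∑ j, (FR.Fd E A a (A b j) - FR.Fd E A b (A a j)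
    + (2 : ℝ) • ∑ i, ∑ k, eps i k j • (A a i * A b k)) * ∑ k, FR.g θ j k * A c k := by
    unfold FR.C
    exact Finset.sum_congr rfl fun j _ => by rw [← theta_eq hF j c]
  rw [h1]
  simp only [PP, QQ, Fin.sum_univ_three, Algebra.smul_def, map_ofNat]
  simp [eps]
  ring

private lemma AAAKL (hF : FrameHyp E A θ) (a b c : Fin 3) :
    ∑ i, ∑ j, ∑ k, A a i * A b j * A c k * FR.KL E θ i j k
      = algebraMap ℝ 𝒜 (1 / 2) * (-PP E A θ a b c - PP E A θ a c b - PP E A θ b a c
        - PP E A θ b c a + PP E A θ c a b + PP E A θ c b a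
        + 2 * (QQ A θ a b c - QQ A θ a c b - QQ A θ b c a)) := by
  have d1 := D3 hF a b c
  have d2 := D3 hF b a c
  have d3 := D3 hF c a b
  have h1 : ∑ i, ∑ j, ∑ k, A a i * A b j * A c k * FR.KL E θ i j k
      = algebraMap ℝ 𝒜 (1 / 2) * ((∑ j, ∑ k, A b j * A c k * FR.Fd E A a (FR.g θ j k))
        + (∑ j, ∑ k, A a j * A c k * FR.Fd E A b (FR.g θ j k))
        - (∑ j, ∑ k, A a j * A b k * FR.Fd E A c (FR.g θ j k))
        + 2 * (QQ A θ a b c - QQ A θ a c b - QQ A θ b c a)) := by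
    simp only [FR.KL, QQ, FR.Fd, Fin.sum_univ_three, Algebra.smul_def (1 / 2 : ℝ),
      Algebra.smul_def (2 : ℝ), map_ofNat]
    simp [eps]
    ring
  rw [h1, d1, d2, d3]
  ring

private lemma Gam_eq (hF : FrameHyp E A θ) (a b c : Fin 3) :
    PP E A θ a b c + ∑ i, ∑ j, ∑ k, A a i * A b j * A c k * FR.KL E θ i j k
      = FR.Gam E A θ a b c := by
  have h2 : algebraMap ℝ 𝒜 (1 / 2) * 2 = 1 := by
    rw [← map_ofNat (algebraMap ℝ 𝒜) 2, ← map_mul]
    norm_num
  rw [AAAKL hF]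
  simp only [FR.Gam, Algebra.smul_def]
  rw [C_eq hF, C_eq hF, C_eq hF, QQ_anti A θ c a b]
  linear_combination (-PP E A θ a b c) * h2

end

theorem lcr : LcrStmt := by
  intro 𝒜 _ _ E A θ hF
  refine ⟨fun a b l => ?_, gig hF, AgA hF⟩
  set X : Fin 3 → 𝒜 := fun l => FR.Fd E A a (A b l)
    + ∑ i, ∑ j, A a i * A b j * FR.KE E A θ i j l with hX
  have h1 : ∀ c, ∑ l, X l * θ l c = FR.Gam E A θ a b c := by
    intro c
    rw [← Gam_eq hF]
    have e1 : ∑ l, FR.Fd E A a (A b l) * θ l c = PP E A θ a b c := by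
      unfold PP
      refine Finset.sum_congr rfl fun j _ => ?_
      rw [theta_eq hF j c, Finset.mul_sum]
      exact Finset.sum_congr rfl fun k _ => by ring
    have e2 : ∑ l, (∑ i, ∑ j, A a i * A b j * FR.KE E A θ i j l) * θ l c
        = ∑ i, ∑ j, ∑ m, A a i * A b j * FR.KL E θ i j m * ∑ l, FR.gi A l m * θ l c := by
      simp only [FR.KE, Fin.sum_univ_three]
      ring
    simp only [hX, add_mul, Finset.sum_add_distrib]
    rw [e1, e2]
    congr 1
    refine Finset.sum_congr rfl fun i _ => Finset.sum_congr rfl fun j _ =>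
      Finset.sum_congr rfl fun m _ => ?_
    rw [git hF]
    ring
  show X l = _
  have h2 : ∑ c, FR.Gam E A θ a b c * A c l = ∑ k, X k * ∑ c, θ k c * A c l := by
    simp only [← h1, Fin.sum_univ_three]
    ring
  rw [h2]
  simp only [hF.tA]
  simp

end Pool.Agent.Helper54.RF
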